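import Pool.Agent.Work.MP_88b7aa_gt.D.P12_12_12i.F0
import Pool.Agent.Work.MP_88b7aa_gt.D.P12_12_12i.F1
import Pool.Agent.Work.MP_88b7aa_gt.D.P12_12_12i.F2

/-! The class is done. -/

set_option autoImplicit false

namespace Pool.Agent.Work.MP_88b7aa_gt.D.P12_12_12i

open Pool.Agent.Work.MP_88b7aa_gt.PQ
open Pool.Agent.Work.MP_88b7aa_gt.Kc

theorem g0 : CGood (KS (.ex 12) (.ex 12) (.iv 12 0)) H.k ⟨271883949458937, 0, 0, 0, 0, 8⟩ ⟨271883949458937, 0, 0, 0, 0, 8⟩ ⟨272455545389056, 0, 601295421440, 0, 0, 0⟩ ⟨130686421827584, 0, 45274365952, 0, 0, 0⟩ :=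
  mC_good H_ok M0.k LB.nil LC.nil

theorem g1 : CGood (KS (.ex 12) (.ex 12) (.iv 12 0)) H.k ⟨271883949458937, 0, 0, 0, 0, 8⟩ ⟨271883949458937, 0, 0, 0, 0, 8⟩ ⟨273056840810496, 0, 1202590842880, 0, 0, 0⟩ ⟨130731696193536, 0, 90548731904, 0, 0, 0⟩ :=
  mC_good H_ok M1.k LB.nil (LC.cons g0 LC.nil)

theorem g2 : CGood (KS (.ex 12) (.ex 12) (.iv 12 0)) H.k ⟨271883949458937, 0, 0, 0, 0, 8⟩ ⟨271883949458937, 0, 0, 0, 0, 8⟩ ⟨276063317917696, 0, 601295421440, 0, 0, 0⟩ ⟨130947717005312, 0, 25172639744, 0, 0, 0⟩ :=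
  mC_good H_ok M2.k LB.nil LC.nil

theorem g3 : CGood (KS (.ex 12) (.ex 12) (.iv 12 0)) H.k ⟨271883949458937, 0, 0, 0, 0, 8⟩ ⟨271883949458937, 0, 0, 0, 0, 8⟩ ⟨275462022496256, 0, 1202590842880, 0, 0, 0⟩ ⟨130922544365568, 0, 50345279488, 0, 0, 0⟩ :=
  mC_good H_ok M3.k LB.nil (LC.cons g2 LC.nil)

theorem g4 : CGood (KS (.ex 12) (.ex 12) (.iv 12 0)) H.k ⟨271883949458937, 0, 0, 0, 0, 8⟩ ⟨271883949458937, 0, 0, 0, 0, 8⟩ ⟨274259431653376, 0, 2405181685760, 0, 0, 0⟩ ⟨130536270987264, 0, 121248940032, 0, 0, 0⟩ :=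
  mC_good H_ok M4.k LB.nil (LC.cons g1 (LC.cons g3 LC.nil))

theorem g5 : CGood (KS (.ex 12) (.ex 12) (.iv 12 0)) H.k ⟨271883949458937, 0, 0, 0, 0, 8⟩ ⟨271883949458937, 0, 0, 0, 0, 8⟩ ⟨279069795024896, 0, 2405181685760, 0, 0, 0⟩ ⟨128536162598912, 0, -467119636480, 0, 0, 0⟩ :=
  mC_good H_ok M5.k LB.nil LC.nil

theorem g6 : CGood (KS (.ex 12) (.ex 12) (.iv 12 0)) H.k ⟨271883949458937, 0, 0, 0, 0, 8⟩ ⟨271883949458937, 0, 0, 0, 0, 8⟩ ⟨274259431653376, 0, 2405181685760, 0, 0, 0⟩ ⟨126817490436096, 0, -302927839232, 0, 0, 0⟩ :=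
  mC_good H_ok M6.k LB.nil (LC.cons g4 LC.nil)

theorem g7 : CGood (KS (.ex 12) (.ex 12) (.iv 12 0)) H.k ⟨271883949458937, 0, 0, 0, 0, 8⟩ ⟨271883949458937, 0, 0, 0, 0, 8⟩ ⟨276664613339136, 0, 4810363371520, 0, 0, 0⟩ ⟨113383982497792, 0, -363897815040, 0, 0, 0⟩ :=
  mC_good H_ok M7.k LB.nil (LC.cons g6 (LC.cons g5 LC.nil))

theorem g8 : CGood (KS (.ex 12) (.ex 12) (.iv 12 0)) H.k ⟨271883949458937, 0, 0, 0, 0, 8⟩ ⟨271883949458937, 0, 0, 0, 0, 8⟩ ⟨276664613339136, 0, 4810363371520, 0, 0, 0⟩ ⟨0, 0, 0, 0, 0, 0⟩ :=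
  mC_good H_ok M8.k LB.nil (LC.cons g7 LC.nil)

theorem done : Done (KS (.ex 12) (.ex 12) (.iv 12 0)) := fin (by decide +kernel) g8

end Pool.Agent.Work.MP_88b7aa_gt.D.P12_12_12i
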